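import Pool.Agent.Helper56.CP.Stmts

set_option autoImplicit false

open Finset Filter Topology

namespace Pool.Agent.Helper57.CP

open Pool.Agent.Helper56.CP

theorem tl : Tendsto (fun z : ℕ => Real.log (z : ℝ)) atTop atTop :=
  Real.tendsto_log_atTop.comp tendsto_natCast_atTop_atTop

/-- `2 (log z)^2 ≤ z` for large `z`. -/
theorem ev_sq : ∀ᶠ z : ℕ in atTop, 2 * Real.log (z : ℝ) ^ 2 ≤ z := by
  have h := (Real.isLittleO_pow_log_id_atTop (n := 2)).bound (c := 1 / 2) (by norm_num)
  have h' := tendsto_natCast_atTop_atTop (R := ℝ) |>.eventually h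
  filter_upwards [h'] with z hz
  simp only [id, Real.norm_eq_abs] at hz
  rw [abs_of_nonneg (by positivity), abs_of_nonneg (by positivity)] at hz
  linarith

theorem ev_lin (a : ℝ) (ha : 0 < a) : ∀ᶠ L : ℝ in atTop, Real.log 2 + 2 * Real.log L ≤ a * L := by
  have h := Real.isLittleO_log_id_atTop.bound (c := a / 4) (by positivity)
  filter_upwards [h, eventually_ge_atTop (1 : ℝ), eventually_ge_atTop (2 * Real.log 2 / a)]
    with L h1 h2 h3
  simp only [id, Real.norm_eq_abs] at h1
  rw [abs_of_nonneg (Real.log_nonneg h2), abs_of_nonneg (by linarith)] at h1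
  rw [div_le_iff₀ ha] at h3
  linarith

/-- `w = ⌊z / (log z)^2⌋`: `log w ≥ a log z` for large `z` (any `a < 1`). -/
theorem ev_w (a : ℝ) (ha : a < 1) : ∀ᶠ z : ℕ in atTop,
    a * Real.log z ≤ Real.log (⌊(z : ℝ) / Real.log z ^ 2⌋₊ : ℝ) := by
  have h1 := tl.eventually (ev_lin (1 - a) (by linarith))
  have h2 := tl.eventually (eventually_ge_atTop (1 : ℝ))
  filter_upwards [ev_sq, h1, h2, eventually_ge_atTop 2] with z hz h1 h2 h3
  have hL : 0 < Real.log (z : ℝ) ^ 2 := by positivity
  have hz0 : (0 : ℝ) < z := by positivity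
  have h4 : 2 ≤ (z : ℝ) / Real.log z ^ 2 := by
    rw [le_div_iff₀ hL]; exact hz
  have h5 : (z : ℝ) / Real.log z ^ 2 / 2 ≤ (⌊(z : ℝ) / Real.log z ^ 2⌋₊ : ℝ) := by
    have := Nat.lt_floor_add_one ((z : ℝ) / Real.log z ^ 2)
    linarith
  have h6 : Real.log ((z : ℝ) / Real.log z ^ 2 / 2) ≤
      Real.log (⌊(z : ℝ) / Real.log z ^ 2⌋₊ : ℝ) :=
    Real.log_le_log (by positivity) h5
  have h7 : Real.log ((z : ℝ) / Real.log z ^ 2 / 2) =
      Real.log z - 2 * Real.log (Real.log z) - Real.log 2 := by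
    rw [Real.log_div (by positivity) (by norm_num), Real.log_div (by positivity) (by positivity),
      Real.log_pow]
    norm_num
  rw [h7] at h6
  linarith

theorem t_w : Tendsto (fun z : ℕ => ⌊(z : ℝ) / Real.log z ^ 2⌋₊) atTop atTop := by
  have h1 : Tendsto (fun z : ℕ => 1 / 2 * Real.log (z : ℝ)) atTop atTop :=
    tl.const_mul_atTop (by norm_num)
  have h2 : Tendsto (fun z : ℕ => (⌊(z : ℝ) / Real.log z ^ 2⌋₊ : ℝ)) atTop atTop := by
    refine tendsto_atTop_mono' _ ?_ h1
    filter_upwards [ev_w (1 / 2) (by norm_num)] with z hz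
    exact hz.trans (Real.log_le_self (Nat.cast_nonneg _))
  exact tendsto_natCast_atTop_iff.1 h2

/-- `θ z ≥ z / 2` for large `z`. -/
theorem ev_theta : ∀ᶠ z : ℕ in atTop, (z : ℝ) / 2 ≤ Chebyshev.theta z := by
  have h := (Real.isLittleO_pow_log_id_atTop (n := 2)).bound (c := 1 / 1600) (by norm_num)
  have h' := tendsto_natCast_atTop_atTop (R := ℝ) |>.eventually h
  have h2 := tl.eventually (eventually_ge_atTop (1 : ℝ))
  filter_upwards [h', h2, eventually_ge_atTop 2] with z hz h2 h3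
  simp only [id, Real.norm_eq_abs] at hz
  rw [abs_of_nonneg (by positivity), abs_of_nonneg (by positivity)] at hz
  have hz0 : (2 : ℝ) ≤ z := by exact_mod_cast h3
  have h4 := Chebyshev.theta_ge z
  have h5 : Real.log ((z : ℝ) + 1) ≤ 2 * Real.log z := by
    have : Real.log ((z : ℝ) + 1) ≤ Real.log ((z : ℝ) ^ 2) :=
      Real.log_le_log (by linarith) (by nlinarith)
    rwa [Real.log_pow, Nat.cast_ofNat] at this
  have h6 : 2 * √(z : ℝ) * Real.log z ≤ z / 20 := by
    have h7 : Real.log z ≤ √(z : ℝ) / 40 := by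
      have h8 : Real.log z ≤ √(1 / 1600 * (z : ℝ)) := Real.le_sqrt_of_sq_le hz
      rw [Real.sqrt_mul (by norm_num)] at h8
      have h9 : √(1 / 1600 : ℝ) = 1 / 40 := by
        rw [show (1 / 1600 : ℝ) = (1 / 40) ^ 2 by norm_num]
        exact Real.sqrt_sq (by norm_num)
      rw [h9] at h8
      linarith
    have h10 := Real.mul_self_sqrt (show (0 : ℝ) ≤ z by linarith)
    have h11 := Real.sqrt_nonneg (z : ℝ)
    nlinarith
  have h7 : Real.log z ≤ z / 1600 := by nlinarith
  have h8 := Real.log_two_gt_d9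
  nlinarith

theorem card_OP_ge (z : ℕ) : (Nat.primeCounting z : ℝ) - 1 ≤ (OP z).card := by
  have h : Nat.primeCounting z ≤ (OP z).card + 1 := by
    rw [Nat.primeCounting, Nat.primeCounting', Nat.count_eq_card_filter_range]
    have h1 : ((range (z + 1)).filter Nat.Prime) ⊆ insert 2 (OP z) := by
      intro p hp
      simp only [mem_filter, mem_range, OP, mem_insert, mem_Icc] at hp ⊢
      have := hp.2.two_le
      by_cases h2 : p = 2
      · left; exact h2
      · right; exact ⟨⟨by omega, by omega⟩, hp.2⟩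
    exact (card_le_card h1).trans (card_insert_le _ _)
  have : (Nat.primeCounting z : ℝ) ≤ (OP z).card + 1 := by exact_mod_cast h
  linarith

theorem card_OP_le (w : ℕ) : ((OP w).card : ℝ) ≤ w := by
  have : (OP w).card ≤ w := by
    refine (card_filter_le _ _).trans ?_
    rw [Nat.card_Icc]; omega
  exact_mod_cast this

/-- the choice of `z`. -/
theorem ex_z (T : ℝ) (hT : 0 ≤ T) : ∃ z : ℕ, Chebyshev.theta z ≤ T ∧
    T ≤ Chebyshev.theta z + Real.log ((z : ℝ) + 1) := by
  classical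
  have hex : ∃ z : ℕ, T < Chebyshev.theta ((z + 1 : ℕ) : ℝ) := by
    obtain ⟨z0, hz0⟩ := (ev_theta).exists_forall_of_atTop
    obtain ⟨n, hn⟩ := exists_nat_gt (2 * T)
    refine ⟨max z0 n, ?_⟩
    have h1 := hz0 (max z0 n + 1) (by omega)
    have h2 : (n : ℝ) ≤ ((max z0 n + 1 : ℕ) : ℝ) := by exact_mod_cast (by omega)
    linarith
  refine ⟨Nat.find hex, ?_, ?_⟩
  · rcases Nat.eq_zero_or_pos (Nat.find hex) with h | h
    · rw [h]; simpa using hT
    · have h1 := Nat.find_min hex (m := Nat.find hex - 1) (by omega)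
      rw [not_lt, Nat.sub_add_cancel h] at h1
      exact h1
  · have h1 := Nat.find_spec hex
    have h2 : Chebyshev.theta ((Nat.find hex + 1 : ℕ) : ℝ) ≤
        Chebyshev.theta (Nat.find hex) + Real.log ((Nat.find hex : ℝ) + 1) := by
      rw [Chebyshev.theta_eq_log_primorial, Chebyshev.theta_eq_log_primorial, Nat.floor_natCast,
        Nat.floor_natCast]
      rw [← Real.log_mul (by exact_mod_cast (primorial_pos _).ne') (by positivity)]
      refine Real.log_le_log (by exact_mod_cast primorial_pos _) ?_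
      have : primorial (Nat.find hex + 1) ≤ primorial (Nat.find hex) * (Nat.find hex + 1) := by
        rw [primorial, primorial, range_add_one (n := Nat.find hex + 1), filter_insert]
        split_ifs with hp
        · rw [prod_insert (by simp), mul_comm]
        · exact Nat.le_mul_of_pos_right _ (by omega)
      exact_mod_cast this
    linarith

theorem lemA (hCW : ST_CW) (κ : ℝ)
    (hκ : 2 * Real.exp (- Real.eulerMascheroniConstant) * C₂ < κ) (hC : 1 / 2 ≤ C₂) :
    ∀ᶠ N : ℕ in atTop, ∃ w z : ℕ, 2 ≤ w ∧ w ≤ z ∧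
      (N : ℝ) * cw w ≤ ((OP z).card : ℝ) - (OP w).card ∧
      ((N : ℝ) + 2) * primorial z ≤ Real.exp (κ * N) ∧ (z : ℝ) ≤ 2 * primorial z := by
  set k0 := 2 * Real.exp (- Real.eulerMascheroniConstant) * C₂ with hk0
  have hk0pos : 0 < k0 := by positivity
  -- choose k1 and ε
  set k1 := (k0 + κ) / 2 with hk1
  have hk1a : k0 < k1 := by rw [hk1]; linarith
  have hk1b : k1 < κ := by rw [hk1]; linarith
  have hk1pos : 0 < k1 := hk0pos.trans hk1a
  obtain ⟨ε, hε, hε1, hεk⟩ : ∃ ε : ℝ, 0 < ε ∧ ε ≤ 1 ∧ (1 + ε) ^ 2 * k0 < k1 := by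
    refine ⟨min 1 ((k1 - k0) / (4 * k0)), ?_, min_le_left _ _, ?_⟩
    · have : 0 < (k1 - k0) / (4 * k0) := div_pos (by linarith) (by linarith)
      exact lt_min one_pos this
    · set e := min 1 ((k1 - k0) / (4 * k0)) with he
      have h1 : e ≤ 1 := min_le_left _ _
      have h2 : e ≤ (k1 - k0) / (4 * k0) := min_le_right _ _
      have h0 : 0 < e := lt_min one_pos (div_pos (by linarith) (by linarith))
      have h3 : e * (4 * k0) ≤ k1 - k0 := by
        rw [le_div_iff₀ (by linarith)] at h2; exact h2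
      have h4 : (1 + e) ^ 2 ≤ 1 + 3 * e := by nlinarith
      nlinarith
  set δ := k1 - (1 + ε) ^ 2 * k0 with hδ
  have hδpos : 0 < δ := by rw [hδ]; linarith
  set δ' := δ / (2 * k1) with hδ'
  have hδ'pos : 0 < δ' := by positivity
  -- eventual facts in z
  have hcw : ∀ᶠ z : ℕ in atTop, cw ⌊(z : ℝ) / Real.log z ^ 2⌋₊ ≤
      (1 + ε) * k0 / Real.log (⌊(z : ℝ) / Real.log z ^ 2⌋₊ : ℝ) := t_w.eventually (hCW ε hε)
  have hE : ∀ᶠ z : ℕ in atTop, 3 * Real.log z + z / Real.log z ≤ δ' * z := by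
    have h := Real.isLittleO_log_id_atTop.bound (c := δ' / 6) (by positivity)
    have h' := tendsto_natCast_atTop_atTop (R := ℝ) |>.eventually h
    have h2 := tl.eventually (eventually_ge_atTop (max 1 (2 / δ')))
    filter_upwards [h', h2] with z h1 h2
    have h3 : 1 ≤ Real.log (z : ℝ) := (le_max_left _ _).trans h2
    have h4 : 2 / δ' ≤ Real.log (z : ℝ) := (le_max_right _ _).trans h2
    simp only [id, Real.norm_eq_abs] at h1
    rw [abs_of_nonneg (by linarith), abs_of_nonneg (by positivity)] at h1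
    rw [div_le_iff₀ hδ'pos] at h4
    have h5 : (z : ℝ) / Real.log z ≤ δ' / 2 * z := by
      rw [div_le_iff₀ (by linarith)]
      have hz : (0 : ℝ) ≤ z := Nat.cast_nonneg z
      nlinarith
    linarith
  have hall : ∀ᶠ z : ℕ in atTop,
      cw ⌊(z : ℝ) / Real.log z ^ 2⌋₊ ≤ (1 + ε) ^ 2 * k0 / Real.log z ∧
      3 * Real.log z + z / Real.log z ≤ δ' * z ∧ (z : ℝ) / 2 ≤ Chebyshev.theta z ∧
      2 ≤ ⌊(z : ℝ) / Real.log z ^ 2⌋₊ ∧ ⌊(z : ℝ) / Real.log z ^ 2⌋₊ ≤ z ∧
      1 ≤ Real.log (z : ℝ) ∧ 2 ≤ z := by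
    filter_upwards [hcw, hE, ev_theta, t_w.eventually (eventually_ge_atTop 2),
      ev_w (1 / (1 + ε)) (by rw [div_lt_one (by linarith)]; linarith),
      tl.eventually (eventually_ge_atTop (1 : ℝ)), eventually_ge_atTop 2]
      with z h1 h2 h3 h4 h5 h6 h7
    refine ⟨?_, h2, h3, h4, ?_, h6, h7⟩
    · refine h1.trans ?_
      have h8 : 0 < 1 / (1 + ε) * Real.log z := by positivity
      have h9 : (1 + ε) * k0 / Real.log (⌊(z : ℝ) / Real.log z ^ 2⌋₊ : ℝ) ≤
          (1 + ε) * k0 / (1 / (1 + ε) * Real.log z) :=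
        div_le_div_of_nonneg_left (by positivity) h8 h5
      refine h9.trans (le_of_eq ?_)
      field_simp
    · have h8 : (z : ℝ) / Real.log z ^ 2 ≤ z := by
        rw [div_le_iff₀ (by positivity)]
        have hz : (0 : ℝ) ≤ z := Nat.cast_nonneg z
        nlinarith [mul_nonneg hz (sub_nonneg.2 h6)]
      exact Nat.floor_le_of_le h8
  -- the growth of exp
  have hF : ∀ᶠ N : ℕ in atTop, ((N : ℝ) + 2) ≤ Real.exp ((κ - k1) * N) := by
    have h := (isLittleO_pow_exp_pos_mul_atTop (k := 1) (b := κ - k1) (by linarith)).bound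
      (c := 1 / 3) (by norm_num)
    have h' := tendsto_natCast_atTop_atTop (R := ℝ) |>.eventually h
    filter_upwards [h', eventually_ge_atTop 1] with N h1 h2
    simp only [pow_one, Real.norm_eq_abs] at h1
    rw [abs_of_nonneg (by positivity), abs_of_nonneg (Real.exp_pos _).le] at h1
    have : (1 : ℝ) ≤ N := by exact_mod_cast h2
    linarith
  obtain ⟨z0, hz0⟩ := hall.exists_forall_of_atTop
  have hlarge : ∀ᶠ N : ℕ in atTop, 2 * Real.log 4 * ((z0 : ℝ) + 1) < k1 * N := by
    have h1 : Tendsto (fun N : ℕ => k1 * (N : ℝ)) atTop atTop :=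
      (tendsto_natCast_atTop_atTop (R := ℝ)).const_mul_atTop hk1pos
    exact h1.eventually (eventually_gt_atTop _)
  filter_upwards [hF, hlarge] with N hN1 hN2
  obtain ⟨z, hz1, hz2⟩ := ex_z (k1 * N) (by positivity)
  have hzz : z0 ≤ z := by
    by_contra hcon
    rw [not_le] at hcon
    have h2 : Chebyshev.theta z ≤ Real.log 4 * (z : ℝ) :=
      Chebyshev.theta_le_log4_mul_x (Nat.cast_nonneg _)
    have h3 : Real.log ((z : ℝ) + 1) ≤ z := by
      have := Real.log_le_sub_one_of_pos (show (0 : ℝ) < (z : ℝ) + 1 by positivity)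
      linarith
    have h4 : (1 : ℝ) ≤ Real.log 4 := by
      have : Real.log 4 = 2 * Real.log 2 := by
        rw [show (4 : ℝ) = 2 ^ 2 by norm_num, Real.log_pow]; norm_num
      rw [this]
      have := Real.log_two_gt_d9
      linarith
    have h5 : ((z : ℝ) + 1) ≤ z0 := by exact_mod_cast hcon
    nlinarith
  obtain ⟨g1, g2, g3, g4, g5, g6, g7⟩ := hz0 z hzz
  refine ⟨⌊(z : ℝ) / Real.log z ^ 2⌋₊, z, g4, g5, ?_, ?_, ?_⟩
  · set w := ⌊(z : ℝ) / Real.log z ^ 2⌋₊ with hw
    have hL : 0 < Real.log (z : ℝ) := by linarith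
    have e1 : (N : ℝ) * cw w ≤ N * ((1 + ε) ^ 2 * k0 / Real.log z) :=
      mul_le_mul_of_nonneg_left g1 (Nat.cast_nonneg _)
    have e2 : (z : ℝ) / (2 * k1) ≤ N := by
      rw [div_le_iff₀ (by positivity)]
      linarith
    have e3 : δ' * z ≤ δ * N := by
      have : δ' * z = δ * (z / (2 * k1)) := by rw [hδ']; ring
      rw [this]
      exact mul_le_mul_of_nonneg_left e2 hδpos.le
    have e4 : Real.log ((z : ℝ) + 1) ≤ 2 * Real.log z := by
      have hz2' : (2 : ℝ) ≤ z := by exact_mod_cast g7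
      have : Real.log ((z : ℝ) + 1) ≤ Real.log ((z : ℝ) ^ 2) :=
        Real.log_le_log (by linarith) (by nlinarith)
      rwa [Real.log_pow, Nat.cast_ofNat] at this
    have e5 : (N : ℝ) * ((1 + ε) ^ 2 * k0) ≤
        Chebyshev.theta z - Real.log z - z / Real.log z := by
      have : (N : ℝ) * ((1 + ε) ^ 2 * k0) = k1 * N - δ * N := by rw [hδ]; ring
      rw [this]
      linarith
    have e6 : N * ((1 + ε) ^ 2 * k0 / Real.log z) ≤
        Chebyshev.theta z / Real.log z - 1 - z / Real.log z ^ 2 := by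
      have : Chebyshev.theta z / Real.log z - 1 - z / Real.log z ^ 2 =
          (Chebyshev.theta z - Real.log z - z / Real.log z) / Real.log z := by
        field_simp
      rw [this, ← mul_div_assoc]
      exact div_le_div_of_nonneg_right e5 hL.le
    have e7 : Chebyshev.theta z / Real.log z ≤ (Nat.primeCounting z : ℝ) := by
      rw [div_le_iff₀ hL]
      exact Chebyshev.theta_le_pi_mul_log z
    have e8 : (w : ℝ) ≤ z / Real.log z ^ 2 := by
      rw [hw]; exact Nat.floor_le (by positivity)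
    have e9 := card_OP_ge z
    have e10 := card_OP_le w
    linarith
  · have f1 : (primorial z : ℝ) = Real.exp (Chebyshev.theta z) := by
      rw [Chebyshev.theta_eq_log_primorial, Nat.floor_natCast, Real.exp_log]
      exact_mod_cast primorial_pos z
    rw [f1]
    have f2 : Real.exp (Chebyshev.theta z) ≤ Real.exp (k1 * N) := Real.exp_le_exp.2 hz1
    calc ((N : ℝ) + 2) * Real.exp (Chebyshev.theta z)
        ≤ Real.exp ((κ - k1) * N) * Real.exp (k1 * N) :=
          mul_le_mul hN1 f2 (Real.exp_pos _).le (Real.exp_pos _).le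
      _ = Real.exp (κ * N) := by rw [← Real.exp_add]; ring_nf
  · have f1 : Chebyshev.theta z = Real.log (primorial z) := by
      rw [Chebyshev.theta_eq_log_primorial, Nat.floor_natCast]
    have f2 : Real.log (primorial z : ℝ) ≤ primorial z :=
      Real.log_le_self (Nat.cast_nonneg _)
    rw [f1] at g3
    linarith

theorem Ap_mono (p R R' : ℕ) (h : R ≤ R') : (Ap p R).card ≤ (Ap p R').card := by
  refine card_le_card ?_
  intro a ha
  simp only [Ap, mem_filter, mem_range] at ha ⊢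
  exact ⟨by omega, ha.2⟩

theorem GRO (hCLU : ST_CLU) (hCW : ST_CW) (hC2 : ST_C2) : ST_GRO := by
  intro κ hκ
  have hA := lemA hCW κ hκ hC2.1
  have hk : 0 < κ := by
    have : 0 < 2 * Real.exp (- Real.eulerMascheroniConstant) * C₂ := by
      have := hC2.1
      positivity
    linarith
  obtain ⟨N0, hN0⟩ := hA.exists_forall_of_atTop
  obtain ⟨w0, z0, a1, a2, a3, a4, a5⟩ := hN0 N0 le_rfl
  refine ⟨1 + ((N0 : ℝ) + 2) * primorial z0, ?_, ?_⟩
  · have : (0 : ℝ) ≤ ((N0 : ℝ) + 2) * primorial z0 := by positivity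
    linarith
  intro N p hp hpN
  set B := 1 + ((N0 : ℝ) + 2) * primorial z0 with hB
  have hprim : ∀ z : ℕ, (1 : ℝ) ≤ primorial z := fun z => by exact_mod_cast primorial_pos z
  have hB1 : 1 ≤ B := by
    have : (0 : ℝ) ≤ ((N0 : ℝ) + 2) * primorial z0 := by positivity
    linarith
  have hexp : 1 ≤ Real.exp (κ * N) := Real.one_le_exp (by positivity)
  by_cases hN : N0 ≤ N
  · obtain ⟨w, z, b1, b2, b3, b4, b5⟩ := hN0 N hN
    have c1 : (((N + 2) * primorial z : ℕ) : ℝ) ≤ B * Real.exp (κ * N) := by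
      push_cast
      nlinarith
    have c2 : (N + 2) * primorial z ≤ ⌊B * Real.exp (κ * N)⌋₊ := Nat.le_floor c1
    have c3 : (z : ℝ) ≤ (((N + 2) * primorial z : ℕ) : ℝ) := by
      push_cast
      have : (0 : ℝ) ≤ (N : ℝ) * primorial z := by positivity
      nlinarith
    have c4 : (0 : ℝ) < (((N + 2) * primorial z : ℕ) : ℝ) := by
      push_cast
      have := hprim z
      positivity
    have c5 : (N + 2) * primorial z + z < p := by
      have : ((((N + 2) * primorial z + z : ℕ)) : ℝ) < (p : ℝ) := by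
        rw [Nat.cast_add]
        linarith
      exact_mod_cast this
    exact (hCLU p w z N ((N + 2) * primorial z) hp b1 b2 b3 le_rfl c5).trans_le
      (Ap_mono _ _ _ c2)
  · rw [not_le] at hN
    have c0 : (((N0 + 2) * primorial z0 : ℕ) : ℝ) ≤ B := by
      rw [hB]; push_cast; linarith
    have c1 : (((N0 + 2) * primorial z0 : ℕ) : ℝ) ≤ B * Real.exp (κ * N) := by
      nlinarith
    have c2 : (N0 + 2) * primorial z0 ≤ ⌊B * Real.exp (κ * N)⌋₊ := Nat.le_floor c1
    have c3 : (z0 : ℝ) ≤ (((N0 + 2) * primorial z0 : ℕ) : ℝ) := by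
      push_cast
      have : (0 : ℝ) ≤ (N0 : ℝ) * primorial z0 := by positivity
      nlinarith
    have c4 : (0 : ℝ) < (((N0 + 2) * primorial z0 : ℕ) : ℝ) := by
      push_cast
      have := hprim z0
      positivity
    have c5 : (N0 + 2) * primorial z0 + z0 < p := by
      have : ((((N0 + 2) * primorial z0 + z0 : ℕ)) : ℝ) < (p : ℝ) := by
        rw [Nat.cast_add]
        linarith
      exact_mod_cast this
    exact (hN.trans (hCLU p w0 z0 N0 ((N0 + 2) * primorial z0) hp a1 a2 a3 le_rfl c5)).trans_le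
      (Ap_mono _ _ _ c2)

end Pool.Agent.Helper57.CP
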